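import Pool.Agent.W574.ML.Pot
import Pool.Agent.W574.ML.Num
import Pool.Agent.W315.LatDefs

/-!
Aligned square lattices in the (2:1) Maker-Breaker game on the `N × N` board: an upper bound.
-/

set_option autoImplicit false
set_option linter.unusedVariables false

namespace Pool.Agent.Results.MP_e39c7e_co.UpperBound

open Finset Pool.Agent.W315.Lat Pool.Agent.W574.ML

/-- In the (2:1) game on the `N × N` board (Maker moves first and claims 2 points per move, Breaker
claims 1 point per move; if fewer free points remain, the player to move takes them) Breaker has a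
strategy with which, at the end of every play, Maker owns no `q × q` aligned square lattice with
`q ^ 2 ≥ T`. -/
def BreakerPrevents (N : ℕ) (T : ℝ) : Prop :=
  ∃ σ : List (Finset (ℤ × ℤ)) → Finset (ℤ × ℤ), IsStrategy 2 1 N 1 σ ∧
    ∀ h : List (Finset (ℤ × ℤ)), IsPlay 2 1 N h → Follows 1 σ h → unclaimed N h = ∅ →
      ∀ q : ℕ, T ≤ (q : ℝ) ^ 2 → ¬ HasLattice Cls.alignedSquare q (Owned 0 h)

lemma own_mem {N r : ℕ} {h : List (Finset (ℤ × ℤ))} (hP : IsPlay 2 1 N h) {x : ℤ × ℤ}
    (hx : x ∈ Owned r h) : x ∈ Pool.Agent.LatKK.own (board N) r h := by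
  obtain ⟨i, hi, hir, hxi⟩ := hx
  unfold Pool.Agent.LatKK.own
  rw [Finset.mem_filter]
  refine ⟨?_, i, hi, hir, hxi⟩
  have h1 := (hP i hi).1 hxi
  exact (Finset.mem_filter.1 h1).1

/-- **Upper bound.** For all large `N`, in the (2:1) game on the `N × N` board Breaker can prevent
Maker from owning a `q × q` aligned square lattice with
`q ^ 2 ≥ log_{3/2} N + 4 log_2 N + 9 log log N`. -/
theorem result : ∃ N₀ : ℕ, ∀ N : ℕ, N₀ ≤ N → BreakerPrevents N
    (Real.logb (3 / 2) N + 4 * Real.logb 2 N + 9 * Real.log (Real.log N)) := by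
  refine ⟨⌈Real.exp 2000⌉₊, fun N hN => ?_⟩
  have hN1 : Real.exp 2000 ≤ (N : ℝ) := (Nat.le_ceil _).trans (by exact_mod_cast hN)
  have hNpos : (0 : ℝ) < N := (Real.exp_pos _).trans_le hN1
  have hL : 2000 ≤ Real.log N := (Real.le_log_iff_exp_le hNpos).2 hN1
  obtain ⟨q0, J, hq2, hq0, hbig⟩ := final_ineq N hL
  have hcardE : (board N).card = N ^ 2 := by
    unfold board
    rw [card_product, Int.card_Icc]
    simp
    ring
  have hbig' : ((Fq N).card : ℝ) * g J 2 + ((board N).card : ℝ) *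
      ((q0 : ℝ) ^ 4 * ((3 / 2) ^ J / 4)) < g J (q0 ^ 2) := by
    rw [card_Fq, hcardE]
    push_cast
    exact hbig
  obtain ⟨σ, h1, h2⟩ := breaker_win (board N) (Fq N) (Sq q0) (g J) ((3 / 2) ^ J / 4)
    ((q0 : ℝ) ^ 4) (fun j => (g_pos J j).le) (g_mono J) (by positivity) (g_one J) (g_two J)
    (by positivity) (fun x y hxy => by exact_mod_cast codeg N q0 x y hxy) (q0 ^ 2)
    (fun i hi => (card_Sq N q0 i hi).ge) hbig'
  refine ⟨σ, ?_, ?_⟩
  · intro h hP hF hl hne
    exact h1 h hP hF hl hne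
  · intro h hP hF hu q hq hlat
    have hqq := hq0 q hq
    obtain ⟨u, v, w, _, hadm, hown⟩ := hlat
    obtain ⟨d, hd, rfl, rfl⟩ := hadm
    have hmem : ∀ k l : ℕ, k < q → l < q →
        (u.1 + k * d, u.2 + l * d) ∈ Pool.Agent.LatKK.own (board N) 0 h := by
      intro k l hk hl
      have h3 := own_mem hP (hown k l hk hl)
      have e : u + (k : ℤ) • ((d, 0) : ℤ × ℤ) + (l : ℤ) • ((0, d) : ℤ × ℤ) =
          (u.1 + k * d, u.2 + l * d) := by
        apply Prod.ext <;> simp
      rwa [e] at h3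
    have hb : ∀ k l : ℕ, k < q → l < q → (u.1 + k * d, u.2 + l * d) ∈ board N :=
      fun k l hk hl => Pool.Agent.LatKK.own_subset (board N) 0 h (hmem k l hk hl)
    have hF' : (u, d) ∈ Fq N := by
      have h4 := hb 0 0 (by omega) (by omega)
      have h5 := hb 1 0 (by omega) (by omega)
      simp only [board, Fq, mem_product, mem_Icc] at h4 h5 ⊢
      push_cast at h4 h5
      refine ⟨⟨⟨by linarith [h4.1.1], by linarith [h4.1.2]⟩, ⟨by linarith [h4.2.1],
        by linarith [h4.2.2]⟩⟩, hd, by linarith [h5.1.2, h4.1.1]⟩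
    refine h2 h hP hF hu (u, d) hF' ?_
    intro x hx
    unfold Sq at hx
    obtain ⟨⟨i, j⟩, hij, rfl⟩ := mem_image.1 hx
    rw [mem_product, mem_range, mem_range] at hij
    exact hmem i j (by omega) (by omega)

end Pool.Agent.Results.MP_e39c7e_co.UpperBound
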